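import Pool.Agent.U180.NG.Stm2

/-! Project NG, second part, package INC (helper981). -/

set_option autoImplicit false

open MeasureTheory ProbabilityTheory Filter Topology
open Pool.Agent.U180.NG

namespace Pool.Agent.U981.NG

theorem measurableSet_disc (R : ℝ) (z : ℤ × ℤ) : MeasurableSet (disc R z) := by
  unfold disc
  exact measurableSet_le (by fun_prop) (by fun_prop)

theorem t_INC (h1 : S_CNT) (h2 : S_TU) : S_INC := by
  intro Ω _ P hP δ ρ μ ξ hξ R R' W t hR hRR' hW hW0 ht htW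
  obtain ⟨hρ, hmeas, -, -, hae⟩ := h1 Ω P hP δ ρ μ ξ hξ
  set B : ℕ := ⌈R' + 2 * ρ + 2⌉₊ with hB
  have hB' : R' + 2 * ρ + 2 ≤ B := Nat.le_ceil _
  have hsub : ∀ z, disc R z ⊆ disc R' z := by
    intro z x hx
    simp only [disc, Set.mem_ofPred_eq] at hx ⊢
    have : R ^ 2 ≤ R' ^ 2 := pow_le_pow_left₀ hR hRR' 2
    linarith
  set g : ℤ × ℤ → ℝ × ℝ → ℝ := fun z => (disc R' z \ disc R z).indicator (fun _ => (1 : ℝ)) with hg
  have hgm : ∀ z, Measurable (g z) := fun z =>
    measurable_const.indicator ((measurableSet_disc R' z).diff (measurableSet_disc R z))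
  set X : ℤ × ℤ → Ω → ℝ := fun z ω => g z (ξ z ω) with hX
  have hXm : ∀ z, Measurable (X z) := fun z => (hgm z).comp (hξ.meas z)
  have hXi : iIndepFun X P := hξ.indep.comp g hgm
  have hX01 : ∀ z ω, X z ω = 0 ∨ X z ω = 1 := by
    intro z ω
    by_cases h : ξ z ω ∈ disc R' z \ disc R z
    · right; simp only [hX, hg]; exact Set.indicator_of_mem h _
    · left; simp only [hX, hg]; exact Set.indicator_of_notMem h _
  have hXe : ∀ z ω, X z ω = ind ξ R' z ω - ind ξ R z ω := by
    intro z ω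
    simp only [hX, hg, ind]
    by_cases h : ξ z ω ∈ disc R z
    · have h' := hsub z h
      rw [Set.indicator_of_mem h, Set.indicator_of_mem h',
        Set.indicator_of_notMem fun h2 => h2.2 h, sub_self]
    · by_cases h' : ξ z ω ∈ disc R' z
      · rw [Set.indicator_of_notMem h, Set.indicator_of_mem h', Set.indicator_of_mem (s := disc R' z \ disc R z) ⟨h', h⟩,
          sub_zero]
      · rw [Set.indicator_of_notMem h, Set.indicator_of_notMem h',
          Set.indicator_of_notMem fun h2 => h' h2.1, sub_zero]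
  have hXint : ∀ z, Integrable (X z) P := fun z =>
    Integrable.of_bound (hXm z).aestronglyMeasurable 1 (ae_of_all _ fun ω => by
      rcases hX01 z ω with h | h <;> rw [h] <;> simp)
  -- the count
  have hind01 : ∀ (r : ℝ) z ω, ind ξ r z ω = 0 ∨ ind ξ r z ω = 1 := by
    intro r z ω
    unfold ind
    by_cases h : ξ z ω ∈ disc r z
    · right; exact Set.indicator_of_mem h _
    · left; exact Set.indicator_of_notMem h _
  have hindint : ∀ (r : ℝ) z, Integrable (ind ξ r z) P := fun r z =>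
    Integrable.of_bound (hmeas r z).aestronglyMeasurable 1 (ae_of_all _ fun ω => by
      rcases hind01 r z ω with h | h <;> rw [h] <;> simp)
  have hc : ∀ r : ℝ, 0 ≤ r → r ≤ R' →
      (fun ω => (count (fun z => ξ z ω) r : ℝ)) =ᵐ[P] fun ω => ∑ z ∈ box B, ind ξ r z ω := by
    intro r hr0 hr
    filter_upwards [hae] with ω hω
    exact (hω.1 r B hr0 (by linarith)).2
  have hcR := hc R hR hRR'
  have hcR' := hc R' (hR.trans hRR') le_rfl
  have hi : ∀ r : ℝ, 0 ≤ r → r ≤ R' → ∫ ω, (count (fun z => ξ z ω) r : ℝ) ∂P =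
      ∑ z ∈ box B, ∫ ω, ind ξ r z ω ∂P := by
    intro r hr0 hr
    rw [integral_congr_ae (hc r hr0 hr), integral_finsetSum _ fun z _ => hindint r z]
  have hmean : ∑ z ∈ box B, ∫ ω, X z ω ∂P =
      ∫ ω, (count (fun z => ξ z ω) R' : ℝ) ∂P - ∫ ω, (count (fun z => ξ z ω) R : ℝ) ∂P := by
    rw [hi R' (hR.trans hRR') le_rfl, hi R hR hRR', ← Finset.sum_sub_distrib]
    refine Finset.sum_congr rfl fun z _ => ?_
    rw [← integral_sub (hindint R' z) (hindint R z)]
    exact integral_congr_ae (ae_of_all _ fun ω => hXe z ω)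
  have hp0 : ∀ z, 0 ≤ ∫ ω, X z ω ∂P := fun z => integral_nonneg fun ω => by
    rcases hX01 z ω with h | h <;> simp [h]
  have hvar : ∑ z ∈ box B, (∫ ω, X z ω ∂P) * (1 - ∫ ω, X z ω ∂P) ≤ W := by
    refine le_trans ?_ hW
    rw [← hmean]
    refine Finset.sum_le_sum fun z _ => ?_
    nlinarith [hp0 z, mul_nonneg (hp0 z) (hp0 z)]
  have key := h2 Ω (ℤ × ℤ) P hP X (box B) W t hXm hXi hX01 hW0 hvar ht htW
  refine le_trans (le_of_eq ?_) key
  apply measureReal_congr
  filter_upwards [hcR, hcR'] with ω h3 h4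
  have h5 : ((count (fun z => ξ z ω) R' : ℝ) - count (fun z => ξ z ω) R) -
        (∫ ω, (count (fun z => ξ z ω) R' : ℝ) ∂P - ∫ ω, (count (fun z => ξ z ω) R : ℝ) ∂P) =
      ∑ i ∈ box B, (X i ω - ∫ ω, X i ω ∂P) := by
    rw [← hmean, Finset.sum_sub_distrib, h3, h4, ← Finset.sum_sub_distrib]
    congr 1
    exact Finset.sum_congr rfl fun z _ => (hXe z ω).symm
  apply propext
  change t ≤ |_| ↔ t ≤ |_|
  rw [h5]

end Pool.Agent.U981.NG
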