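import Pool.Agent.U180.NG.Stm

/-! Project NG, package MEANP (helper981). -/

set_option autoImplicit false

open MeasureTheory ProbabilityTheory Filter Topology
open Pool.Agent.U180.NG

namespace Pool.Agent.U981.NG

theorem t_MEANP (h1 : S_MEANY) (h2 : S_PZ) : S_MEANP := by
  obtain ⟨C, hC, h⟩ := h1
  refine ⟨C, hC, fun δ ρ μ hδ hδ1 hμ hsupp R B hR hB => ?_⟩
  obtain ⟨-, hz⟩ := h2 δ μ hδ hμ
  have e1 : ∑ z ∈ box B, (noiseLaw δ μ).real (disc R z) - Real.pi * R ^ 2 =
      ∫ y, (∑ z ∈ box B, phi δ R y z - Real.pi * R ^ 2) ∂μ := by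
    rw [integral_sub (integrable_finsetSum _ fun z _ => (hz R z).2.1) (integrable_const _),
      integral_finsetSum _ (fun z _ => (hz R z).2.1), integral_const]
    simp only [probReal_univ, one_smul]
    congr 1
    exact Finset.sum_congr rfl fun z _ => (hz R z).1
  rw [e1, ← Real.norm_eq_abs]
  have h3 : ∀ᵐ y ∂μ, ‖∑ z ∈ box B, phi δ R y z - Real.pi * R ^ 2‖ ≤ C * Real.sqrt R / δ := by
    filter_upwards [hsupp] with y hy
    rw [Real.norm_eq_abs]
    apply h δ R y B hδ hδ1 hR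
    linarith [hy.1, hy.2]
  have h4 := norm_integral_le_of_norm_le_const h3
  rwa [probReal_univ, mul_one] at h4

end Pool.Agent.U981.NG
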